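import Mathlib
import Pool.Agent.W411.UltraSub
import Pool.Agent.W411.Cube

/-!
The class of lattices embeddable into subspace lattices of vector spaces over division rings is
not specified by finitely many first-order sentences in the language of lattices.

Proof: `Sub((Z/p^2)^3)` is not in the class for any prime `p`, but an ultraproduct of these
lattices embeds into the subspace lattice of a rational vector space; apply Los's theorem.
-/

namespace Pool.Agent.Results.MP_d4b74c_al.NotFinitelyAxiomatizable

universe u v w

/-- The two binary operation symbols of the language of lattices. -/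
inductive LatticeOp : ℕ → Type
  | inf : LatticeOp 2
  | sup : LatticeOp 2

/-- The first-order language of lattices: two binary operation symbols, no relation symbols. -/
def latticeLanguage : FirstOrder.Language := ⟨LatticeOp, fun _ => Empty⟩

/-- Every lattice is a structure for the language of lattices, the symbols being interpreted by
meet and join. -/
instance latticeStructure (L : Type u) [Lattice L] : latticeLanguage.Structure L where
  funMap := fun {_} s x =>
    match s, x with
    | LatticeOp.inf, x => x 0 ⊓ x 1
    | LatticeOp.sup, x => x 0 ⊔ x 1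
  RelMap := fun {_} r _ => Empty.elim r

/-- The class `K`: lattices that admit an injective lattice homomorphism into the lattice of
subspaces of some vector space over some division ring. -/
def Representable (L : Type u) [Lattice L] : Prop :=
  ∃ (D : Type v) (_ : DivisionRing D) (V : Type w) (_ : AddCommGroup V) (_ : Module D V)
    (f : LatticeHom L (Submodule D V)), Function.Injective f

section proof

open Pool.Agent.W411.UltraSub Filter

/-- The lattices `Sub((Z/p^2)^3)`. -/
abbrev Lp (p : Nat.Primes) : Type u := ULift.{u} (AddSubgroup (M p))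

theorem not_representable (p : Nat.Primes) : ¬ Representable.{u, v, w} (Lp.{u} p) := by
  rintro ⟨D, _, V, _, _, f, hf⟩
  let up : LatticeHom (AddSubgroup (M p)) (Lp.{u} p) :=
    { toFun := fun H => ULift.up H
      map_sup' := fun _ _ => rfl
      map_inf' := fun _ _ => rfl }
  have hup : Function.Injective up := ULift.up_injective
  obtain ⟨q, hq, h⟩ := (Pool.Agent.W411.Cube.cube_embeds_iff.{v, w, 0} (Z p)).mp
    ⟨D, _, V, _, _, f.comp up, hf.comp hup⟩
  have h1 := h 1
  rw [nsmul_eq_mul, mul_one, ZMod.natCast_eq_zero_iff] at h1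
  have h2 : (p : ℕ) ∣ q := (dvd_pow_self _ two_ne_zero).trans h1
  have h3 : (p : ℕ) = q := (Nat.prime_dvd_prime_iff_eq p.2 hq).mp h2
  rw [← h3] at h1
  have h4 := Nat.le_of_dvd p.2.pos h1
  have h5 := p.2.two_le
  nlinarith

/-- The ultraproduct. -/
abbrev Lstar : Type u := (U : Filter Nat.Primes).Product (fun p => Lp.{u} p)

/-- The map from the ultraproduct to the subspace lattice. -/
noncomputable def Phi : Lstar.{u} → Submodule ℚ W :=
  Quotient.lift (fun H : ∀ p, Lp.{u} p => star (fun p => (H p).down)) (by
    intro H K h
    have h' : ∀ᶠ p in (U : Filter Nat.Primes), H p = K p := h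
    change star _ = star _
    rw [star_inj]
    filter_upwards [h'] with p hp
    rw [hp])

theorem Phi_injective : Function.Injective Phi.{u} := by
  intro a b
  induction a using Quotient.inductionOn with
  | h H =>
  induction b using Quotient.inductionOn with
  | h K =>
  intro h
  have h' : star (fun p => (H p).down) = star (fun p => (K p).down) := h
  rw [star_inj] at h'
  apply Quotient.sound
  change ∀ᶠ p in (U : Filter Nat.Primes), H p = K p
  filter_upwards [h'] with p hp
  exact ULift.down_injective hp

/-- The ultraproduct structure. -/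
noncomputable abbrev ultraStructure : latticeLanguage.Structure Lstar.{u} :=
  FirstOrder.Language.Ultraproduct.structure

theorem Phi_inf (a b : Lstar.{u}) :
    Phi (ultraStructure.funMap (n := 2) LatticeOp.inf ![a, b]) = Phi a ⊓ Phi b := by
  induction a using Quotient.inductionOn with
  | h H =>
  induction b using Quotient.inductionOn with
  | h K =>
  have h1 : (ultraStructure.funMap (n := 2) LatticeOp.inf
      ![(Quotient.mk _ H : Lstar.{u}), (Quotient.mk _ K : Lstar.{u})]) =
      (Quotient.mk _ (fun p => H p ⊓ K p) : Lstar.{u}) := by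
    have h2 := FirstOrder.Language.Ultraproduct.funMap_cast (L := latticeLanguage)
      (M := fun p => Lp.{u} p) (u := U) (n := 2) LatticeOp.inf ![H, K]
    have h3 : (fun i : Fin 2 => ((![H, K] i : ∀ p, Lp.{u} p) : Lstar.{u})) =
        ![(Quotient.mk _ H : Lstar.{u}), (Quotient.mk _ K : Lstar.{u})] := by
      funext i; fin_cases i <;> rfl
    rw [h3] at h2
    exact h2
  rw [h1]
  exact star_inf _ _

theorem Phi_sup (a b : Lstar.{u}) :
    Phi (ultraStructure.funMap (n := 2) LatticeOp.sup ![a, b]) = Phi a ⊔ Phi b := by
  induction a using Quotient.inductionOn with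
  | h H =>
  induction b using Quotient.inductionOn with
  | h K =>
  have h1 : (ultraStructure.funMap (n := 2) LatticeOp.sup
      ![(Quotient.mk _ H : Lstar.{u}), (Quotient.mk _ K : Lstar.{u})]) =
      (Quotient.mk _ (fun p => H p ⊔ K p) : Lstar.{u}) := by
    have h2 := FirstOrder.Language.Ultraproduct.funMap_cast (L := latticeLanguage)
      (M := fun p => Lp.{u} p) (u := U) (n := 2) LatticeOp.sup ![H, K]
    have h3 : (fun i : Fin 2 => ((![H, K] i : ∀ p, Lp.{u} p) : Lstar.{u})) =
        ![(Quotient.mk _ H : Lstar.{u}), (Quotient.mk _ K : Lstar.{u})] := by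
      funext i; fin_cases i <;> rfl
    rw [h3] at h2
    exact h2
  rw [h1]
  exact star_sup _ _

/-- The lattice structure of the ultraproduct. -/
noncomputable abbrev latticeStar : Lattice Lstar.{u} :=
  let : Max Lstar.{u} := ⟨fun a b => ultraStructure.funMap (n := 2) LatticeOp.sup ![a, b]⟩
  let : Min Lstar.{u} := ⟨fun a b => ultraStructure.funMap (n := 2) LatticeOp.inf ![a, b]⟩
  let : LE Lstar.{u} := ⟨fun a b => Phi a ≤ Phi b⟩
  let : LT Lstar.{u} := ⟨fun a b => Phi a < Phi b⟩
  Function.Injective.lattice Phi Phi_injective Iff.rfl Iff.rfl Phi_sup Phi_inf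

theorem structure_eq : @latticeStructure Lstar.{u} latticeStar = ultraStructure := by
  apply FirstOrder.Language.Structure.ext
  · funext n s x
    cases s with
    | inf =>
      have : x = ![x 0, x 1] := by funext i; fin_cases i <;> rfl
      conv_rhs => rw [this]
      rfl
    | sup =>
      have : x = ![x 0, x 1] := by funext i; fin_cases i <;> rfl
      conv_rhs => rw [this]
      rfl
  · funext n r x
    exact Empty.elim r

theorem representable_star :
    @Representable.{u, v, w} Lstar.{u} latticeStar := by
  let : Lattice Lstar.{u} := latticeStar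
  refine ⟨ULift.{v} ℚ, inferInstance, ULift.{w} W, inferInstance, inferInstance,
    { toFun := fun a =>
        { carrier := {x | x.down ∈ Phi a}
          add_mem' := fun {x y} hx hy => by
            simp only [Set.mem_ofPred_eq, ULift.add_down] at *
            exact add_mem hx hy
          zero_mem' := by
            simp only [Set.mem_ofPred_eq, ULift.zero_down]
            exact zero_mem _
          smul_mem' := fun c x hx => by
            simp only [Set.mem_ofPred_eq] at *
            exact (Phi a).smul_mem c.down hx }
      map_sup' := ?_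
      map_inf' := ?_ }, ?_⟩
  · intro a b
    ext x
    rw [Submodule.mem_sup]
    constructor
    · intro hx
      have hx' : x.down ∈ Phi (a ⊔ b) := hx
      have h1 : Phi (a ⊔ b) = Phi a ⊔ Phi b := Phi_sup a b
      rw [h1, Submodule.mem_sup] at hx'
      obtain ⟨y, hy, z, hz, hyz⟩ := hx'
      exact ⟨ULift.up y, hy, ULift.up z, hz, by ext1; exact hyz⟩
    · rintro ⟨y, hy, z, hz, rfl⟩
      change (y + z).down ∈ Phi (a ⊔ b)
      have h1 : Phi (a ⊔ b) = Phi a ⊔ Phi b := Phi_sup a b
      rw [h1]
      exact Submodule.add_mem_sup hy hz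
  · intro a b
    ext x
    change x.down ∈ Phi (a ⊓ b) ↔ x.down ∈ Phi a ∧ x.down ∈ Phi b
    have h1 : Phi (a ⊓ b) = Phi a ⊓ Phi b := Phi_inf a b
    rw [h1, Submodule.mem_inf]
  · intro a b h
    apply Phi_injective
    ext x
    exact SetLike.ext_iff.mp h (ULift.up x)

end proof

open FirstOrder in
/-- No finite set of first-order sentences specifies the class `K` of lattices embeddable into
subspace lattices of vector spaces over division rings. -/
theorem result :
    ¬ ∃ T : Set latticeLanguage.Sentence, T.Finite ∧
      ∀ (L : Type u) [Lattice L] [Nonempty L],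
        (Representable.{u, v, w} L ↔ ∀ φ ∈ T, L ⊨ φ) := by
  rintro ⟨T, hT, h⟩
  have h1 : ∀ p : Nat.Primes, ∃ φ ∈ T, ¬ (Lp.{u} p ⊨ φ) := by
    intro p
    have h2 := (h (Lp.{u} p)).not.mp (not_representable.{u, v, w} p)
    push Not at h2
    exact h2
  have h3 : ∀ᶠ p in (Pool.Agent.W411.UltraSub.U : Filter Nat.Primes), ∃ φ ∈ T, ¬ (Lp.{u} p ⊨ φ) :=
    Filter.Eventually.of_forall h1
  have h4 : ∃ φ ∈ T, ∀ᶠ p in (Pool.Agent.W411.UltraSub.U : Filter Nat.Primes),
      ¬ (Lp.{u} p ⊨ φ) := by
    by_contra hcon
    push Not at hcon
    have h5 : ∀ φ ∈ T, ∀ᶠ p in (Pool.Agent.W411.UltraSub.U : Filter Nat.Primes),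
        (Lp.{u} p ⊨ φ) := by
      intro φ hφ
      exact hcon φ hφ
    have h8 : ∀ᶠ p in (Pool.Agent.W411.UltraSub.U : Filter Nat.Primes), ∀ φ ∈ T,
        (Lp.{u} p ⊨ φ) := (Filter.eventually_all_finite hT).mpr h5
    obtain ⟨p, h9, h10⟩ := (h8.and h3).exists
    obtain ⟨φ, hφ, h11⟩ := h10
    exact h11 (h9 φ hφ)
  obtain ⟨φ, hφ, h5⟩ := h4
  have h6 : ¬ (@FirstOrder.Language.Sentence.Realize latticeLanguage Lstar.{u}
      ultraStructure φ) := by
    rw [FirstOrder.Language.Ultraproduct.sentence_realize]
    exact Ultrafilter.eventually_not.mp h5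
  have hne : Nonempty Lstar.{u} := ⟨Quotient.mk _ (fun p => ⟨⊥⟩)⟩
  have h7 := (@h Lstar.{u} latticeStar hne).mp representable_star φ hφ
  rw [structure_eq] at h7
  exact h6 h7

end Pool.Agent.Results.MP_d4b74c_al.NotFinitelyAxiomatizable
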